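import Mathlib
import Pool.Agent.Y268.D3.Stm3
import Pool.Agent.H278R2.Kad7.Up
import Pool.Agent.H278R2.Kad7.UpAlg

/-! The fibre of a homomorphism, bilinear version. -/

set_option autoImplicit false

open scoped ComplexOrder InnerProductSpace ComplexConjugate Topology
open Finset Filter

noncomputable section

namespace Pool.Agent.Z864.D3

open H759R2.Kad H770R2.Kad H770R2.Kad.Hfib H770R2.Kad.AULT Pool.Agent.Y784.KS Y268.D3

theorem ult_lim {I : Type} (U : Ultrafilter I) (f : I → ℝ) (hf : ∀ p, f p ∈ Set.Icc (0 : ℝ) 1) :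
    ∃ l ∈ Set.Icc (0 : ℝ) 1, Tendsto f (U : Filter I) (𝓝 l) := by
  obtain ⟨l, hl, h⟩ := isCompact_Icc.ultrafilter_le_nhds (U.map f) (by
    rw [le_principal_iff]
    exact Filter.mem_map.2 (Filter.univ_mem' hf))
  exact ⟨l, hl, h⟩

theorem norm_le_of_inner {K : Type} [NormedAddCommGroup K] [InnerProductSpace ℂ K] {x : K} {r : ℝ}
    (h : ‖⟪x, x⟫_ℂ‖ ≤ r * ‖x‖) (hr : 0 ≤ r) : ‖x‖ ≤ r := by
  rw [inner_self_eq_norm_sq_to_K, norm_pow, RCLike.norm_ofReal, abs_of_nonneg (norm_nonneg x)] at h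
  rcases (norm_nonneg x).eq_or_lt with h0 | h0
  · rw [← h0]
    exact hr
  · rw [sq] at h
    exact le_of_mul_le_mul_right h h0

theorem cenB : S_cenB := by
  intro L _ _ _ M F hF H _ _ _ W hW c hc0 hWc m X κ hκ hX
  obtain ⟨U, hU⟩ := exists_ult F hF
  obtain ⟨Kh, _, _, _, Q, O, hUP⟩ := prove_up.{0} F U H
  obtain ⟨hQlin, hOlin, hOmul, hOstar, -, -, hOle, -⟩ := prove_upalg.{0} F U H Kh Q O hUP
  let fam : M.toStarSubalgebra → F → (H →L[ℂ] H) := fun a p => W ((p : M.toStarSubalgebra) * a)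
  have hpn : ∀ p : F, ‖(p : M.toStarSubalgebra)‖ ≤ 1 := fun p => cp_norm (hF.cp p.1 p.2)
  have hfb : ∀ a (p : F), ‖fam a p‖ ≤ c * ‖a‖ := by
    intro a p
    refine (hWc _).trans (mul_le_mul_of_nonneg_left ?_ hc0)
    refine (norm_mul_le _ _).trans ?_
    calc ‖(p : M.toStarSubalgebra)‖ * ‖a‖ ≤ 1 * ‖a‖ :=
          mul_le_mul_of_nonneg_right (hpn p) (norm_nonneg _)
      _ = ‖a‖ := one_mul _
  have hBd : ∀ a, Bd (fam a) := fun a => ⟨c * ‖a‖, hfb a⟩
  have hfmul : ∀ a b (p : F), fam a p * fam b p = fam (a * b) p := by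
    intro a b p
    have hp := hF.cp p.1 p.2
    change W (p.1 * a) * W (p.1 * b) = W (p.1 * (a * b))
    rw [← hW.mul]
    congr 1
    calc p.1 * a * (p.1 * b) = (p.1 * a) * p.1 * b := by simp only [mul_assoc]
      _ = (p.1 * (p.1 * a)) * b := by rw [hp.2.2 (p.1 * a)]
      _ = (p.1 * p.1) * (a * b) := by simp only [mul_assoc]
      _ = p.1 * (a * b) := by rw [hp.2.1]
  have hOf : ∀ a b, O (fam a) * O (fam b) = O (fam (a * b)) := by
    intro a b
    rw [← hOmul _ _ (hBd a) (hBd b)]
    congr 1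
    funext p
    exact hfmul a b p
  set E : Kh →L[ℂ] Kh := O (fam 1) with hE
  have hEf : ∀ a x, E (O (fam a) x) = O (fam a) x := by
    intro a x
    have := hOf 1 a
    rw [one_mul] at this
    exact congrArg (fun T : Kh →L[ℂ] Kh => T x) this
  have hfE : ∀ a x, O (fam a) (E x) = O (fam a) x := by
    intro a x
    have := hOf a 1
    rw [mul_one] at this
    exact congrArg (fun T : Kh →L[ℂ] Kh => T x) this
  -- the closed subspace
  let Ks : Submodule ℂ Kh := LinearMap.ker ((E - 1 : Kh →L[ℂ] Kh) : Kh →ₗ[ℂ] Kh)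
  have hmem : ∀ x, x ∈ Ks ↔ E x = x := by
    intro x
    change (E - 1 : Kh →L[ℂ] Kh) x = 0 ↔ _
    rw [sub_apply, one_apply_eq_self, sub_eq_zero]
  have hclosed : IsClosed (Ks : Set Kh) := (E - 1 : Kh →L[ℂ] Kh).isClosed_ker
  have : CompleteSpace Ks := hclosed.completeSpace_coe
  have hcod : ∀ a (x : Ks), ((O (fam a)).comp Ks.subtypeL) x ∈ Ks := by
    intro a x
    rw [hmem]
    exact hEf a x
  have hfadd : ∀ a b, O (fam (a + b)) = O (fam a) + O (fam b) := by
    intro a b
    have := hOlin (fam a) (fam b) 1 (hBd a) (hBd b)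
    rw [one_smul] at this
    rw [← this]
    congr 1
    funext p
    change W (p.1 * (a + b)) = (1 : ℂ) • W (p.1 * a) + W (p.1 * b)
    rw [one_smul, mul_add, map_add]
  have hf0 : O (fam 0) = 0 := by
    have := hfadd 0 0
    rw [add_zero] at this
    exact left_eq_add.mp this
  have hfsmul : ∀ (r : ℂ) a, O (fam (r • a)) = r • O (fam a) := by
    intro r a
    have := hOlin (fam a) (fam 0) r (hBd a) (hBd 0)
    rw [hf0, add_zero] at this
    rw [← this]
    congr 1
    funext p
    change W (p.1 * (r • a)) = r • W (p.1 * a) + W (p.1 * 0)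
    rw [mul_smul_comm, map_smul, mul_zero, map_zero, add_zero]
  let w : M.toStarSubalgebra →ₗ[ℂ] (Ks →L[ℂ] Ks) :=
    { toFun := fun a => ((O (fam a)).comp Ks.subtypeL).codRestrict Ks (hcod a)
      map_add' := by
        intro a b
        ext x
        change O (fam (a + b)) (x : Kh) = O (fam a) (x : Kh) + O (fam b) (x : Kh)
        rw [hfadd]
        rfl
      map_smul' := by
        intro r a
        ext x
        change O (fam (r • a)) (x : Kh) = r • O (fam a) (x : Kh)
        rw [hfsmul]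
        rfl }
  have hw : ∀ a (x : Ks), ((w a x : Ks) : Kh) = O (fam a) (x : Kh) := fun a x => rfl
  have hOa : ∀ a, ∀ q ∈ F, ‖O (fam a)‖ ≤ c * ‖q * a‖ := by
    intro a q hq
    refine hOle _ _ (by positivity) (hBd a) ?_
    filter_upwards [hU q hq] with p hp
    have e : (p : M.toStarSubalgebra) * a = p * (q * a) := by
      have hq' := hF.cp q hq
      calc (p : M.toStarSubalgebra) * a = (q * p) * a := by rw [hp]
        _ = (p * q) * a := by rw [hq'.2.2 p]
        _ = p * (q * a) := by rw [mul_assoc]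
    change ‖W ((p : M.toStarSubalgebra) * a)‖ ≤ _
    rw [e]
    exact hfb (q * a) p
  refine ⟨Ks, inferInstance, inferInstance, inferInstance, w, ⟨?_, ?_⟩, ?_, ?_, ?_⟩
  · intro a b
    ext x
    change O (fam (a * b)) (x : Kh) = O (fam a) (O (fam b) (x : Kh))
    rw [← hOf]
    rfl
  · ext x
    change O (fam 1) (x : Kh) = x
    exact (hmem x).1 x.2
  · intro a q hq
    refine ContinuousLinearMap.opNorm_le_bound _ (by positivity) fun x => ?_
    have : ‖w a x‖ = ‖O (fam a) (x : Kh)‖ := rfl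
    rw [this]
    refine ((O (fam a)).le_opNorm _).trans ?_
    exact mul_le_mul_of_nonneg_right (hOa a q hq) (norm_nonneg _)
  · -- adjoints
    intro a ha
    have hcb : ∀ b, Bd (fun _ : F => W b) := fun b => ⟨‖W b‖, fun _ => le_rfl⟩
    have hconst : ∀ b (y : Ks), O (fam b) (y : Kh) = O (fun _ => W b) (y : Kh) := by
      intro b y
      have e1 : O (fam b) = O (fun _ => W b) * O (fam 1) := by
        rw [← hOmul _ _ (hcb b) (hBd 1)]
        congr 1
        funext p
        change W (p.1 * b) = W b * W (p.1 * 1)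
        rw [mul_one, ← hW.mul, (hF.cp p.1 p.2).2.2 b]
      rw [e1]
      change O (fun _ => W b) (E (y : Kh)) = _
      rw [(hmem _).1 y.2]
    refine ContinuousLinearMap.ext fun x => ?_
    refine ext_inner_right ℂ fun y => ?_
    rw [ContinuousLinearMap.star_eq_adjoint, ContinuousLinearMap.adjoint_inner_left]
    change ⟪(x : Kh), O (fam a) (y : Kh)⟫_ℂ = ⟪O (fam (star a)) (x : Kh), (y : Kh)⟫_ℂ
    rw [hconst, hconst]
    have e2 : O (fun _ => W (star a)) = star (O (fun _ : F => W a)) := by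
      rw [← hOstar _ (hcb a)]
      congr 1
      funext p
      exact ha.symm
    rw [e2, ContinuousLinearMap.star_eq_adjoint, ContinuousLinearMap.adjoint_inner_left]
  · -- the vectors
    have hvec : ∀ p : F, ∃ (ζ η : HH (Fin m) H) (a b : Fin m → ℝ), (∀ i, 0 ≤ a i) ∧
        (∀ i, 0 ≤ b i) ∧
        (∀ i x, ‖W x (ζ i)‖ ≤ a i * ‖x‖) ∧ (∀ i x, ‖vmap W x (η i)‖ ≤ b i * ‖x‖) ∧
        (∀ i, W (p : M.toStarSubalgebra) (ζ i) = ζ i) ∧
        (∀ i, star (W (p : M.toStarSubalgebra)) (η i) = η i) ∧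
        ∑ i, a i ^ 2 ≤ 1 ∧ ∑ i, b i ^ 2 ≤ 1 ∧ κ ≤ ‖⟪amp W (Fin m) X ζ, η⟫_ℂ‖ :=
      fun p => hX p.1 p.2
    choose ζ η a b ha0 hb0 hζ hη hWζ hWη ha1 hb1 hκp using hvec
    have hone : ‖(1 : M.toStarSubalgebra)‖ ≤ 1 := cp_norm (hF.cp 1 hF.one)
    have haI : ∀ j (p : F), a p j ∈ Set.Icc (0 : ℝ) 1 := fun j p => by
      refine ⟨ha0 p j, ?_⟩
      have h1 := Finset.single_le_sum (f := fun i => a p i ^ 2) (fun i _ => sq_nonneg _)
        (Finset.mem_univ j)
      have h2 := ha1 p
      nlinarith [ha0 p j]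
    have hbI : ∀ j (p : F), b p j ∈ Set.Icc (0 : ℝ) 1 := fun j p => by
      refine ⟨hb0 p j, ?_⟩
      have h1 := Finset.single_le_sum (f := fun i => b p i ^ 2) (fun i _ => sq_nonneg _)
        (Finset.mem_univ j)
      have h2 := hb1 p
      nlinarith [hb0 p j]
    have hζn : ∀ (p : F) j, ‖ζ p j‖ ≤ 1 := by
      intro p j
      have h1 := hζ p j 1
      rw [hW.one, one_apply_eq_self] at h1
      have h2 := (haI j p).2
      have h3 := ha0 p j
      nlinarith [norm_nonneg (1 : M.toStarSubalgebra)]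
    have hηn : ∀ (p : F) j, ‖η p j‖ ≤ 1 := by
      intro p j
      have h1 := hη p j 1
      rw [vmap_apply, star_one, hW.one, star_one, one_apply_eq_self] at h1
      have h2 := (hbI j p).2
      have h3 := hb0 p j
      nlinarith [norm_nonneg (1 : M.toStarSubalgebra)]
    have hζb : ∀ j, Bd (fun p : F => ζ p j) := fun j => ⟨1, fun p => hζn p j⟩
    have hηb : ∀ j, Bd (fun p : F => η p j) := fun j => ⟨1, fun p => hηn p j⟩
    -- limits of the weights
    choose la hla hlaT using fun j => ult_lim U (fun p : F => a p j) (haI j)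
    choose lb hlb hlbT using fun j => ult_lim U (fun p : F => b p j) (hbI j)
    have hla2 : ∑ j, la j ^ 2 ≤ 1 :=
      le_of_tendsto (tendsto_finsetSum _ fun j _ => (hlaT j).pow 2)
        (Filter.Eventually.of_forall ha1)
    have hlb2 : ∑ j, lb j ^ 2 ≤ 1 :=
      le_of_tendsto (tendsto_finsetSum _ fun j _ => (hlbT j).pow 2)
        (Filter.Eventually.of_forall hb1)
    have hpq : ∀ q ∈ F, ∀ x : M.toStarSubalgebra, ∀ᶠ p : F in (U : Filter F),
        ‖(p : M.toStarSubalgebra) * x‖ ≤ ‖q * x‖ := by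
      intro q hq x
      filter_upwards [hU q hq] with p hp
      have e : (p : M.toStarSubalgebra) * x = p * (q * x) := by
        have hq' := hF.cp q hq
        calc (p : M.toStarSubalgebra) * x = (q * p) * x := by rw [hp]
          _ = (p * q) * x := by rw [hq'.2.2 p]
          _ = p * (q * x) := by rw [mul_assoc]
      rw [e]
      refine (norm_mul_le _ _).trans ?_
      calc ‖(p : M.toStarSubalgebra)‖ * ‖q * x‖ ≤ 1 * ‖q * x‖ :=
            mul_le_mul_of_nonneg_right (hpn p) (norm_nonneg _)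
        _ = ‖q * x‖ := one_mul _
    -- a bound for limits
    have hmaj : ∀ (z : F → H), Bd z → ∀ (α : F → ℝ) (l r : ℝ), 0 ≤ l → 0 ≤ r →
        Tendsto α (U : Filter F) (𝓝 l) → (∀ᶠ p : F in (U : Filter F), ‖z p‖ ≤ α p * r) →
        ‖Q z‖ ≤ l * r := by
      intro z hz α l r hl hr hα hzα
      have h1 := norm_lim hUP hz
      have h2 : Tendsto (fun p => (α p * r) ^ 2) (U : Filter F) (𝓝 ((l * r) ^ 2)) :=
        (hα.mul_const r).pow 2
      have h3 := le_of_tendsto_of_tendsto h1 h2 (by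
        filter_upwards [hzα] with p hp
        exact pow_le_pow_left₀ (norm_nonneg _) hp 2)
      exact (sq_le_sq₀ (norm_nonneg _) (by positivity)).1 h3
    -- the vectors
    let Ξ : Fin m → Kh := fun j => Q (fun p : F => ζ p j)
    let Y : Fin m → Kh := fun j => Q (fun p : F => η p j)
    have hEΞ : ∀ j, E (Ξ j) = Ξ j := by
      intro j
      change E (Q (fun p : F => ζ p j)) = Q (fun p : F => ζ p j)
      rw [hE, hUP.act (fam 1) (fun p : F => ζ p j) (hBd 1) (hζb j)]
      congr 1
      funext p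
      change W ((p : M.toStarSubalgebra) * 1) (ζ p j) = ζ p j
      rw [mul_one, hWζ]
    let Ξ' : HH (Fin m) Ks := WithLp.toLp 2 fun j => ⟨Ξ j, (hmem _).2 (hEΞ j)⟩
    have hΞ'j : ∀ j, ((Ξ' j : Ks) : Kh) = Ξ j := fun j => rfl
    let η' : HH (Fin m) Ks := WithLp.toLp 2 fun j => Ks.orthogonalProjectionOnto (Y j)
    have hη'j : ∀ j, η' j = Ks.orthogonalProjectionOnto (Y j) := fun j => rfl
    have hinn : ∀ (u : Ks) j, ⟪u, η' j⟫_ℂ = ⟪(u : Kh), Y j⟫_ℂ := by
      intro u j
      rw [hη'j]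
      exact Submodule.inner_orthogonalProjectionOnto_eq_of_mem_left u (Y j)
    refine ⟨Ξ', η', la, lb, fun j => (hla j).1, fun j => (hlb j).1, ?_, ?_, hla2, hlb2, ?_⟩
    · intro i x q hq
      have e : ‖w x (Ξ' i)‖ = ‖Q (fun p : F => fam x p (ζ p i))‖ := by
        rw [← hUP.act (fam x) (fun p : F => ζ p i) (hBd x) (hζb i)]
        rfl
      rw [e]
      have hzb : Bd (fun p : F => fam x p (ζ p i)) := by
        refine ⟨c * ‖x‖ * 1, fun p => ?_⟩
        exact ((fam x p).le_opNorm _).trans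
          (mul_le_mul (hfb _ _) (hζn p i) (norm_nonneg _) (by positivity))
      refine hmaj _ hzb (fun p => a p i) (la i) _ (hla i).1 (norm_nonneg _) (hlaT i) ?_
      filter_upwards [hpq q hq x] with p hp
      exact (hζ p i _).trans (mul_le_mul_of_nonneg_left hp (ha0 p i))
    · intro i x q hq
      have e1 : star (O (fam (star x))) (Y i) =
          Q (fun p : F => vmap W (x * (p : M.toStarSubalgebra)) (η p i)) := by
        rw [← hOstar _ (hBd (star x))]
        have hb' : Bd (fun p : F => star (fam (star x) p)) :=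
          ⟨c * ‖star x‖, fun p => by rw [norm_star]; exact hfb _ p⟩
        change O (fun p : F => star (fam (star x) p)) (Q (fun p : F => η p i)) = _
        rw [hUP.act _ _ hb' (hηb i)]
        congr 1
        funext p
        change star (W ((p : M.toStarSubalgebra) * star x)) (η p i) = star (W _) (η p i)
        rw [star_mul, (hF.cp p.1 p.2).1]
      have hzb : Bd (fun p : F => vmap W (x * (p : M.toStarSubalgebra)) (η p i)) := by
        refine ⟨1 * ‖x‖, fun p => ?_⟩
        refine (hη p i _).trans (mul_le_mul (hbI i p).2 ?_ (norm_nonneg _) zero_le_one)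
        refine (norm_mul_le _ _).trans ?_
        calc ‖x‖ * ‖(p : M.toStarSubalgebra)‖ ≤ ‖x‖ * 1 :=
              mul_le_mul_of_nonneg_left (hpn p) (norm_nonneg _)
          _ = ‖x‖ := mul_one _
      have e2 : ‖star (O (fam (star x))) (Y i)‖ ≤ lb i * ‖q * x‖ := by
        rw [e1]
        refine hmaj _ hzb (fun p => b p i) (lb i) _ (hlb i).1 (norm_nonneg _) (hlbT i) ?_
        filter_upwards [hpq q hq x] with p hp
        refine (hη p i _).trans (mul_le_mul_of_nonneg_left ?_ (hb0 p i))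
        rw [← (hF.cp p.1 p.2).2.2 x]
        exact hp
      refine norm_le_of_inner ?_ (mul_nonneg (hlb i).1 (norm_nonneg _))
      obtain ⟨ψ, hψ⟩ : ∃ ψ, ψ = vmap w x (η' i) := ⟨_, rfl⟩
      have e3 : ⟪ψ, vmap w x (η' i)⟫_ℂ = ⟪(ψ : Kh), star (O (fam (star x))) (Y i)⟫_ℂ := by
        rw [vmap_apply, ContinuousLinearMap.star_eq_adjoint,
          ContinuousLinearMap.adjoint_inner_right, hinn,
          ContinuousLinearMap.star_eq_adjoint, ContinuousLinearMap.adjoint_inner_right]
        rfl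
      rw [← hψ] at e3 ⊢
      rw [e3]
      refine (norm_inner_le_norm _ _).trans ?_
      rw [mul_comm]
      exact mul_le_mul_of_nonneg_right e2 (norm_nonneg _)
    · -- the inner product
      let T : F → HH (Fin m) H := fun p => amp W (Fin m) X (ζ p)
      have hζD : ∀ p : F, D W m (p : M.toStarSubalgebra) (ζ p) = ζ p := by
        intro p
        ext i
        rw [D_apply, hWζ]
      have hT : ∀ (p : F) (i : Fin m), (T p) i = ∑ j, fam (X i j) p (ζ p j) := by
        intro p i
        have hcp : CPg (p : M.toStarSubalgebra) := hF.cp p.1 p.2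
        have e1 : T p = D W m (p : M.toStarSubalgebra) (T p) := by
          change amp W (Fin m) X (ζ p) = D W m p (amp W (Fin m) X (ζ p))
          rw [D_comm hW hcp, hζD]
        rw [e1, D_apply]
        change W p.1 (amp W (Fin m) X (ζ p) i) = _
        rw [amp_apply, map_sum]
        refine Finset.sum_congr rfl fun j _ => ?_
        change W p.1 (W (X i j) (ζ p j)) = W (p.1 * X i j) (ζ p j)
        rw [hW.mul]
        rfl
      have hzb : ∀ i j, Bd (fun p : F => fam (X i j) p (ζ p j)) := by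
        intro i j
        refine ⟨c * ‖X i j‖ * 1, fun p => ?_⟩
        refine ((fam (X i j) p).le_opNorm _).trans ?_
        exact mul_le_mul (hfb _ _) (hζn p j) (norm_nonneg _) (by positivity)
      have hyb : ∀ i, Bd (fun p : F => (T p) i) := by
        intro i
        have h3 := (Q_sum hQlin Finset.univ (fun j p => fam (X i j) p (ζ p j)) (hzb i)).1
        simpa only [hT] using h3
      have hQy : ∀ i, ((amp w (Fin m) X Ξ' i : Ks) : Kh) = Q (fun p : F => (T p) i) := by
        intro i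
        have h3 := (Q_sum hQlin Finset.univ (fun j p => fam (X i j) p (ζ p j)) (hzb i)).2
        simp only [hT]
        rw [h3, amp_apply, Submodule.coe_sum]
        refine Finset.sum_congr rfl fun j _ => ?_
        rw [hw, hΞ'j]
        exact hUP.act (fam (X i j)) (fun p : F => ζ p j) (hBd _) (hζb j)
      have hlim : Tendsto (fun p : F => ⟪amp W (Fin m) X (ζ p), η p⟫_ℂ) (U : Filter F)
          (𝓝 ⟪amp w (Fin m) X Ξ', η'⟫_ℂ) := by
        have e1 : ⟪amp w (Fin m) X Ξ', η'⟫_ℂ = ∑ i, ⟪Q (fun p : F => (T p) i), Y i⟫_ℂ := by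
          rw [PiLp.inner_apply]
          refine Finset.sum_congr rfl fun i _ => ?_
          rw [hinn, hQy]
        have e2 : (fun p : F => ⟪amp W (Fin m) X (ζ p), η p⟫_ℂ) =
            fun p : F => ∑ i, ⟪(T p) i, η p i⟫_ℂ := by
          funext p
          rw [PiLp.inner_apply]
        rw [e1, e2]
        exact tendsto_finsetSum _ fun i _ => hUP.inn _ _ (hyb i) (hηb i)
      exact ge_of_tendsto hlim.norm (Filter.Eventually.of_forall hκp)

end Pool.Agent.Z864.D3
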